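import Pool.Agent.Helper95.OD.St

set_option autoImplicit false

namespace Pool.Agent.Helper75.OD

open Pool.Agent.Helper95.OD Finset
open scoped Classical

theorem cl_ext {m r : ℕ} {c c' : Cl m r} (h1 : lo c = lo c') (h2 : hi c = hi c') : c = c' := by
  obtain ⟨⟨⟨i, j⟩, hij⟩, x, y⟩ := c
  obtain ⟨⟨⟨i', j'⟩, hij'⟩, x', y'⟩ := c'
  simp only [lo, hi, Prod.mk.injEq] at h1 h2
  obtain ⟨rfl, rfl⟩ := h1
  obtain ⟨rfl, rfl⟩ := h2
  rfl

theorem fib_lt {m r : ℕ} (c : Cl m r) : (lo c).1 < (hi c).1 := c.1.2

theorem mem_cells {m r : ℕ} {X : Finset (Vx m r)} {c : Cl m r} :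
    c ∈ cells X ↔ lo c ∈ X ∧ hi c ∈ X := by
  simp [cells]

theorem hCT : CT := by
  intro m r s X hT hs
  refine ⟨?_, ?_⟩
  · intro a ha b hb hab
    rw [mem_cells] at ha hb
    refine cl_ext (hT _ ha.1 _ hb.1 ?_) (hT _ ha.2 _ hb.2 ?_)
    · simp only [lo, hab]
    · simp only [hi, hab]
  · rw [← hs, ← Finset.card_powersetCard 2 X]
    refine Finset.card_bij (fun c _ => ({lo c, hi c} : Finset (Vx m r))) ?_ ?_ ?_
    · intro c hc
      rw [mem_cells] at hc
      rw [mem_powersetCard]
      refine ⟨?_, Finset.card_pair ?_⟩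
      · intro v hv
        simp only [mem_insert, mem_singleton] at hv
        rcases hv with rfl | rfl
        · exact hc.1
        · exact hc.2
      · intro h
        have := fib_lt c
        rw [h] at this
        exact lt_irrefl _ this
    · intro c hc c' hc' h
      have h1 : lo c ∈ ({lo c', hi c'} : Finset (Vx m r)) := by
        rw [← h]
        simp
      have h2 : hi c ∈ ({lo c', hi c'} : Finset (Vx m r)) := by
        rw [← h]
        simp
      have l1 := fib_lt c
      have l2 := fib_lt c'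
      simp only [mem_insert, mem_singleton] at h1 h2
      rcases h1 with h1 | h1
      · rcases h2 with h2 | h2
        · rw [h1, h2] at l1
          exact absurd l1 (lt_irrefl _)
        · exact cl_ext h1 h2
      · rcases h2 with h2 | h2
        · rw [h1, h2] at l1
          exact absurd (l1.trans l2) (lt_irrefl _)
        · rw [h1, h2] at l1
          exact absurd l1 (lt_irrefl _)
    · intro Y hY
      rw [mem_powersetCard, Finset.card_eq_two] at hY
      obtain ⟨hYX, u, v, huv, rfl⟩ := hY
      have hu : u ∈ X := hYX (by simp)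
      have hv : v ∈ X := hYX (by simp)
      have hne : u.1 ≠ v.1 := fun h => huv (hT u hu v hv h)
      rcases lt_or_gt_of_ne hne with hlt | hlt
      · refine ⟨(⟨(u.1, v.1), hlt⟩, u.2, v.2), ?_, ?_⟩
        · rw [mem_cells]
          exact ⟨hu, hv⟩
        · rfl
      · refine ⟨(⟨(v.1, u.1), hlt⟩, v.2, u.2), ?_, ?_⟩
        · rw [mem_cells]
          exact ⟨hv, hu⟩
        · exact Finset.pair_comm v u

end Pool.Agent.Helper75.OD
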